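import Mathlib
import Pool.Agent.Helper36.LeibFinal

/-!
# A component of the variety of six-dimensional Leibniz algebras made of nilpotent algebras

The six-dimensional Leibniz algebra with nonzero products `e₁e₁ = e₅`, `e₂e₂ = e₆`, `e₃e₃ = e₅`,
`e₄e₃ = e₆`, `e₂e₄ = e₅` has a Zariski neighbourhood in the variety of Leibniz algebras in which all
products of three elements vanish. So it lies on an irreducible component, and every irreducible
component that contains it consists of nilpotent algebras.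
-/

set_option autoImplicit false

namespace Pool.Agent.Results.MP_675cf2_al.ClassTwoComponent

/-- Structure constants of bilinear products on `ℂ⁶`. -/
abbrev Consts : Type := Fin 6 × Fin 6 × Fin 6 → ℂ

/-- The product `x y` of two vectors, for the structure constants `c`. -/
def prod (c : Consts) (x y : Fin 6 → ℂ) : Fin 6 → ℂ :=
  fun k => ∑ i : Fin 6, ∑ j : Fin 6, x i * y j * c (i, j, k)

/-- The variety of right Leibniz algebras: `(xy)z = (xz)y + x(yz)`. -/
def rightLeibniz : Set Consts :=
  {c | ∀ x y z : Fin 6 → ℂ, prod c (prod c x y) z = prod c (prod c x z) y + prod c x (prod c y z)}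

/-- The variety of left Leibniz algebras: `x(yz) = (xy)z + y(xz)`. -/
def leftLeibniz : Set Consts :=
  {c | ∀ x y z : Fin 6 → ℂ, prod c x (prod c y z) = prod c (prod c x y) z + prod c y (prod c x z)}

/-- Zariski closed sets: the common zero sets of sets of polynomials. -/
def ZariskiClosed (Z : Set Consts) : Prop :=
  ∃ S : Set (MvPolynomial (Fin 6 × Fin 6 × Fin 6) ℂ), Z = {c | ∀ p ∈ S, MvPolynomial.eval c p = 0}

/-- Irreducible closed sets. -/
def IsIrreducibleClosed (Z : Set Consts) : Prop :=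
  ZariskiClosed Z ∧ Z.Nonempty ∧
    ∀ A B : Set Consts, ZariskiClosed A → ZariskiClosed B → Z ⊆ A ∪ B → Z ⊆ A ∨ Z ⊆ B

/-- `Z` is an irreducible component of `X`: a maximal irreducible closed subset. -/
def IsComponent (X Z : Set Consts) : Prop :=
  IsIrreducibleClosed Z ∧ Z ⊆ X ∧ ∀ Z', IsIrreducibleClosed Z' → Z ⊆ Z' → Z' ⊆ X → Z' = Z

/-- `IsProduct c k x`: the vector `x` is a product of `k` elements, with some bracketing. -/
inductive IsProduct (c : Consts) : ℕ → (Fin 6 → ℂ) → Prop
  | single (x : Fin 6 → ℂ) : IsProduct c 1 x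
  | mul {a b : ℕ} {x y : Fin 6 → ℂ} (hx : IsProduct c a x) (hy : IsProduct c b y) :
      IsProduct c (a + b) (prod c x y)

/-- All products of three elements vanish, with both bracketings. -/
def ClassTwo (c : Consts) : Prop :=
  ∀ x y z : Fin 6 → ℂ, prod c (prod c x y) z = 0 ∧ prod c x (prod c y z) = 0

/-- Nilpotent: for some `k ≥ 1` all products of `k` elements vanish, with any bracketing. -/
def Nilpotent (c : Consts) : Prop := ∃ k : ℕ, 1 ≤ k ∧ ∀ x, IsProduct c k x → x = 0

/-- The point `e` of `X` has a Zariski neighbourhood `D ≠ 0` in `X` in which all products of three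
elements vanish; `e` lies on an irreducible component of `X`; and all algebras on the irreducible
components of `X` that contain `e` are nilpotent, all their products of three elements vanish. -/
def NilpotentNearby (X : Set Consts) (e : Consts) : Prop :=
  e ∈ X ∧
  (∃ D : MvPolynomial (Fin 6 × Fin 6 × Fin 6) ℂ, MvPolynomial.eval e D ≠ 0 ∧
    ∀ c ∈ X, MvPolynomial.eval c D ≠ 0 → ClassTwo c) ∧
  (∃ Z, IsComponent X Z ∧ e ∈ Z) ∧
  ∀ Z, IsComponent X Z → e ∈ Z → ∀ c ∈ Z, ClassTwo c ∧ Nilpotent c

/-- The algebra with nonzero products `e₁e₁ = e₅`, `e₂e₂ = e₆`, `e₃e₃ = e₅`, `e₄e₃ = e₆`,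
`e₂e₄ = e₅` (the indices start at `0` here). -/
noncomputable def rightExample : Consts := fun t =>
  if t = (0, 0, 4) ∨ t = (1, 1, 5) ∨ t = (2, 2, 4) ∨ t = (3, 2, 5) ∨ t = (1, 3, 4) then 1 else 0

/-- The opposite algebra: nonzero products `e₁e₁ = e₅`, `e₂e₂ = e₆`, `e₃e₃ = e₅`, `e₃e₄ = e₆`,
`e₄e₂ = e₅`. -/
noncomputable def leftExample : Consts := fun t =>
  if t = (0, 0, 4) ∨ t = (1, 1, 5) ∨ t = (2, 2, 4) ∨ t = (2, 3, 5) ∨ t = (3, 1, 4) then 1 else 0

open Pool.Agent.Helper36.LeibSys Pool.Agent.Helper36.LeibCore Pool.Agent.Helper36.LeibFinal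

theorem nilpotent_of_classTwo {c : Consts} (h : ClassTwo c) : Nilpotent c := by
  have h0 : ∀ {k : ℕ} {x : Fin 6 → ℂ}, IsProduct c k x → 1 ≤ k := by
    intro k x hx
    induction hx with
    | single x => exact le_rfl
    | mul hx hy ihx ihy => omega
  have h2 : ∀ {k : ℕ} {x : Fin 6 → ℂ}, IsProduct c k x → k = 2 → ∃ y z, x = prod c y z := by
    intro k x hx hk
    cases hx with
    | single x => omega
    | mul hx hy => exact ⟨_, _, rfl⟩
  refine ⟨3, by norm_num, ?_⟩
  have key : ∀ {k : ℕ} {x : Fin 6 → ℂ}, IsProduct c k x → k = 3 → x = 0 := by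
    intro k x hx hk
    cases hx with
    | single x => omega
    | @mul a b x y hx hy =>
      have ha := h0 hx
      have hb := h0 hy
      rcases (by omega : (a = 1 ∧ b = 2) ∨ (a = 2 ∧ b = 1)) with ⟨ha1, hb2⟩ | ⟨ha2, hb1⟩
      · obtain ⟨u, v, rfl⟩ := h2 hy hb2
        exact (h x u v).2
      · obtain ⟨u, v, rfl⟩ := h2 hx ha2
        exact (h u v y).1
  intro x hx
  exact key hx rfl

theorem left_nearby : NilpotentNearby leftLeibniz leftExample := by
  obtain ⟨D, hD0, hD⟩ := exists_open
  have hD' : ∀ c ∈ leftLeibniz, MvPolynomial.eval c D ≠ 0 → ClassTwo c := by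
    intro c hc hcD x y z
    exact ⟨(hD c hc hcD x y z).1, (hD c hc hcD y z x).2⟩
  refine ⟨c0_leib, ⟨D, hD0, hD'⟩, ?_, ?_⟩
  · obtain ⟨Z, hcZ, hirr, hsub, hmax⟩ := exists_component c0_leib
    exact ⟨Z, ⟨hirr, hsub, hmax⟩, hcZ⟩
  · intro Z hZ heZ c hc
    have hirr : ZIrr Z := hZ.1
    have hcl : ClassTwo c := by
      intro u v w
      constructor
      · funext t
        by_contra hne
        have hq : MvPolynomial.eval c (muP (muP (cv u) (cv v)) (cv w) t) ≠ 0 := by
          simp only [eval_muP, eval_cv]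
          exact hne
        obtain ⟨d, hdZ, hdD, hdq⟩ := irr_mul hirr heZ hc hD0 hq
        apply hdq
        simp only [eval_muP, eval_cv]
        exact congrFun (hD d (hZ.2.1 hdZ) hdD u v w).1 t
      · funext t
        by_contra hne
        have hq : MvPolynomial.eval c (muP (cv u) (muP (cv v) (cv w)) t) ≠ 0 := by
          simp only [eval_muP, eval_cv]
          exact hne
        obtain ⟨d, hdZ, hdD, hdq⟩ := irr_mul hirr heZ hc hD0 hq
        apply hdq
        simp only [eval_muP, eval_cv]
        exact congrFun (hD d (hZ.2.1 hdZ) hdD v w u).2 t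
    exact ⟨hcl, nilpotent_of_classTwo hcl⟩

/-- exchange of the first two indices -/
def sw (t : Fin 6 × Fin 6 × Fin 6) : Fin 6 × Fin 6 × Fin 6 := (t.2.1, t.1, t.2.2)

/-- the opposite product -/
def opp (c : Consts) : Consts := fun t => c (sw t)

theorem opp_opp (c : Consts) : opp (opp c) = c := rfl

theorem prod_opp (c : Consts) (x y : Fin 6 → ℂ) : prod (opp c) x y = prod c y x := by
  funext k
  unfold prod opp sw
  rw [Finset.sum_comm]
  refine Finset.sum_congr rfl fun i _ => Finset.sum_congr rfl fun j _ => ?_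
  ring

theorem opp_mem_left (c : Consts) : opp c ∈ leftLeibniz ↔ c ∈ rightLeibniz := by
  unfold leftLeibniz rightLeibniz
  simp only [Set.mem_ofPred_eq, prod_opp]
  constructor
  · intro h x y z
    have := h z y x
    rw [this, add_comm]
  · intro h x y z
    have := h z y x
    rw [this, add_comm]

theorem classTwo_opp {c : Consts} (h : ClassTwo (opp c)) : ClassTwo c := by
  intro x y z
  have h1 := h z y x
  simp only [prod_opp] at h1
  exact ⟨h1.2, h1.1⟩

theorem eval_opp (c : Consts) (p : MvPolynomial (Fin 6 × Fin 6 × Fin 6) ℂ) :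
    MvPolynomial.eval (opp c) p = MvPolynomial.eval c (MvPolynomial.rename sw p) := by
  rw [MvPolynomial.eval_rename]
  rfl

theorem closed_opp {Z : Set Consts} (h : ZariskiClosed Z) : ZariskiClosed (opp ⁻¹' Z) := by
  obtain ⟨S, rfl⟩ := h
  refine ⟨MvPolynomial.rename sw '' S, ?_⟩
  ext c
  constructor
  · rintro hc _ ⟨p, hp, rfl⟩
    rw [← eval_opp]
    exact hc p hp
  · intro hc p hp
    rw [eval_opp]
    exact hc _ ⟨p, hp, rfl⟩

theorem preimage_preimage_opp (Z : Set Consts) : opp ⁻¹' (opp ⁻¹' Z) = Z := rfl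

theorem irreducible_opp {Z : Set Consts} (h : IsIrreducibleClosed Z) :
    IsIrreducibleClosed (opp ⁻¹' Z) := by
  refine ⟨closed_opp h.1, ?_, ?_⟩
  · obtain ⟨c, hc⟩ := h.2.1
    exact ⟨opp c, hc⟩
  · intro A B hA hB hAB
    rcases h.2.2 (opp ⁻¹' A) (opp ⁻¹' B) (closed_opp hA) (closed_opp hB)
      (by
        intro c hc
        have h5 : opp c ∈ opp ⁻¹' Z := by
          rw [Set.mem_preimage, opp_opp]
          exact hc
        exact hAB h5) with h1 | h1
    · left
      intro c hc
      have h6 : opp c ∈ opp ⁻¹' A := h1 hc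
      rwa [Set.mem_preimage, opp_opp] at h6
    · right
      intro c hc
      have h6 : opp c ∈ opp ⁻¹' B := h1 hc
      rwa [Set.mem_preimage, opp_opp] at h6

theorem component_opp {Z : Set Consts} (h : IsComponent rightLeibniz Z) :
    IsComponent leftLeibniz (opp ⁻¹' Z) := by
  refine ⟨irreducible_opp h.1, ?_, ?_⟩
  · intro c hc
    have h1 : opp c ∈ rightLeibniz := h.2.1 hc
    have h2 := (opp_mem_left (opp c)).2 h1
    rwa [opp_opp] at h2
  · intro Z' h1 h2 h3
    have h4 := h.2.2 (opp ⁻¹' Z') (irreducible_opp h1) (by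
      intro c hc
      have h5 : opp c ∈ opp ⁻¹' Z := by
        rw [Set.mem_preimage, opp_opp]
        exact hc
      exact h2 h5) (by
      intro c hc
      have h5 : opp c ∈ leftLeibniz := h3 hc
      exact (opp_mem_left c).1 h5)
    rw [← h4, preimage_preimage_opp]

theorem component_opp' {Z : Set Consts} (h : IsComponent leftLeibniz Z) :
    IsComponent rightLeibniz (opp ⁻¹' Z) := by
  refine ⟨irreducible_opp h.1, ?_, ?_⟩
  · intro c hc
    have h1 : opp c ∈ leftLeibniz := h.2.1 hc
    exact (opp_mem_left c).1 h1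
  · intro Z' h1 h2 h3
    have h4 := h.2.2 (opp ⁻¹' Z') (irreducible_opp h1) (by
      intro c hc
      have h5 : opp c ∈ opp ⁻¹' Z := by
        rw [Set.mem_preimage, opp_opp]
        exact hc
      exact h2 h5) (by
      intro c hc
      have h5 : opp c ∈ rightLeibniz := h3 hc
      have h6 := (opp_mem_left (opp c)).2 h5
      rwa [opp_opp] at h6)
    rw [← h4, preimage_preimage_opp]

theorem rightExample_eq : rightExample = opp leftExample := by
  funext ⟨i, j, k⟩
  unfold rightExample opp leftExample sw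
  simp only [Prod.mk.injEq]
  have : ((i = 0 ∧ j = 0 ∧ k = 4) ∨ (i = 1 ∧ j = 1 ∧ k = 5) ∨ (i = 2 ∧ j = 2 ∧ k = 4) ∨
      (i = 3 ∧ j = 2 ∧ k = 5) ∨ (i = 1 ∧ j = 3 ∧ k = 4)) ↔
      ((j = 0 ∧ i = 0 ∧ k = 4) ∨ (j = 1 ∧ i = 1 ∧ k = 5) ∨ (j = 2 ∧ i = 2 ∧ k = 4) ∨
      (j = 2 ∧ i = 3 ∧ k = 5) ∨ (j = 3 ∧ i = 1 ∧ k = 4)) := by
    tauto
  simp only [this]

theorem right_nearby : NilpotentNearby rightLeibniz rightExample := by
  obtain ⟨h1, ⟨D, hD0, hD⟩, ⟨Z, hZ, heZ⟩, h4⟩ := left_nearby
  rw [rightExample_eq]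
  refine ⟨?_, ⟨MvPolynomial.rename sw D, ?_, ?_⟩, ⟨opp ⁻¹' Z, component_opp' hZ, ?_⟩, ?_⟩
  · apply (opp_mem_left (opp leftExample)).1
    rw [opp_opp]
    exact h1
  · rw [← eval_opp, opp_opp]
    exact hD0
  · intro c hc hcD
    rw [← eval_opp] at hcD
    exact classTwo_opp (hD (opp c) ((opp_mem_left c).2 hc) hcD)
  · rw [Set.mem_preimage, opp_opp]
    exact heZ
  · intro Y hY heY c hc
    have h7 : opp c ∈ opp ⁻¹' Y := by
      rw [Set.mem_preimage, opp_opp]
      exact hc
    have h5 := h4 (opp ⁻¹' Y) (component_opp hY) heY (opp c) h7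
    have h6 := classTwo_opp h5.1
    exact ⟨h6, nilpotent_of_classTwo h6⟩

/-- In the variety of six-dimensional Leibniz algebras there is an irreducible component all of
whose points are nilpotent algebras: all components through an explicit algebra are such. This
holds for both conventions, right and left Leibniz algebras. -/
theorem result :
    NilpotentNearby rightLeibniz rightExample ∧ NilpotentNearby leftLeibniz leftExample :=
  ⟨right_nearby, left_nearby⟩

end Pool.Agent.Results.MP_675cf2_al.ClassTwoComponent
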